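import Mathlib

set_option autoImplicit false

/-!
# Confluence of combinators with the semi-equational conditional

Any set of combinators (each with at least one argument, the right-hand side of its rule being any
applicative term built from the arguments and the constants) together with the conditional
`C T x y → x`, `C F x y → y` and `C z x y → x` if `x ↔* y`, read semi-equationally, is confluent.

Idea of the proof. Let `E` be convertibility for the syntactic rule `C z x x → x`; one has
`x ↔* y` iff `E x y`, and the system is the set of steps `R` in which the condition is `E`. By a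
stack machine `T` and `F` are not `E`-convertible. An auxiliary system `U` contracts `C z x y` to
`y` if `E z F`, and to `x` if `E x y` and not `E z F`. A parallel step `Sim` for the syntactic
system commutes with `U`, and so `E x y` implies that `x` reduces by `R` and `y` by `U` to a common
term. For `y = F` this shows that `E z F` implies that `z` reduces by `R` to `F`, hence each
`U`-step is a sequence of `R`-steps, and `R` is confluent.
-/

namespace Pool.Agent.Results.MP_18c441_lc.AllCombinators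

/-- Applicative terms over a set `V` of variables, a set `Q` of combinators and the constants
`T, F, C`. -/
inductive Tm (V Q : Type) : Type
  | var (v : V)
  | con (q : Q)
  | T
  | F
  | C
  | app (s t : Tm V Q)

open Tm

/-- `inst r x` is the term `r` with `x i` for the variable `i`. -/
def inst {V W Q : Type} : Tm W Q → (W → Tm V Q) → Tm V Q
  | var v, x => x v
  | con q, _ => con q
  | T, _ => T
  | F, _ => F
  | C, _ => C
  | app s t, x => app (inst s x) (inst t x)

/-- `ap n s x` is the term `s x_0 x_1 … x_(n-1)`. -/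
def ap {V Q : Type} : (n : ℕ) → Tm V Q → (Fin n → Tm V Q) → Tm V Q
  | 0, s, _ => s
  | n + 1, s, x => app (ap n s (fun i => x i.castSucc)) (x (Fin.last n))

/-- The rules for the combinators: `q x_0 … x_(ar q) → rhs q`, where `rhs q` is any term in the
variables `x_0, …, x_(ar q)`. -/
structure Sys (Q : Type) where
  /-- the number of the arguments, minus one -/
  ar : Q → ℕ
  /-- the right-hand side -/
  rhs : (q : Q) → Tm (Fin (ar q + 1)) Q

/-- Contraction, inside any context, of an instance of the rule of a combinator, of an instance of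
`C T x y → x` or `C F x y → y`, or of an instance `C z x y → x` whose arguments `x`, `y` are
related by `conv`. -/
inductive StepOf {V Q : Type} (M : Sys Q) (conv : Tm V Q → Tm V Q → Prop) :
    Tm V Q → Tm V Q → Prop
  | comb (q : Q) (x : Fin (M.ar q + 1) → Tm V Q) :
      StepOf M conv (ap (M.ar q + 1) (con q) x) (inst (M.rhs q) x)
  | ruleCT (x y : Tm V Q) : StepOf M conv (app (app (app C T) x) y) x
  | ruleCF (x y : Tm V Q) : StepOf M conv (app (app (app C F) x) y) y
  | ruleC (z x y : Tm V Q) (h : conv x y) : StepOf M conv (app (app (app C z) x) y) x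
  | left (s s' t : Tm V Q) (h : StepOf M conv s s') : StepOf M conv (app s t) (app s' t)
  | right (s t t' : Tm V Q) (h : StepOf M conv t t') : StepOf M conv (app s t) (app s t')

/-- The relations `→_n`: `→_0` is empty, and `→_{n+1}` uses convertibility for `→_n`
(the reflexive, symmetric and transitive closure) in the condition of the rule for `C z x y`. -/
def level {V Q : Type} (M : Sys Q) : ℕ → Tm V Q → Tm V Q → Prop
  | 0 => fun _ _ => False
  | n + 1 => StepOf M (Relation.EqvGen (level M n))

/-- The rewrite relation of the system: the union of all `→_n`. -/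
def Step {V Q : Type} (M : Sys Q) (s t : Tm V Q) : Prop := ∃ n, level M n s t

section aux

open Relation

variable {V Q : Type} {M : Sys Q}

/-! ### instances and applications -/

theorem inst_congr {n : ℕ} {B : Tm V Q → Tm V Q → Prop} (hr : ∀ s, B s s)
    (ha : ∀ s s' t t', B s s' → B t t' → B (app s t) (app s' t')) (r : Tm (Fin n) Q)
    {x x' : Fin n → Tm V Q} (h : ∀ i, B (x i) (x' i)) : B (inst r x) (inst r x') := by
  induction r with
  | var v => exact h v
  | con q => exact hr _
  | T => exact hr _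
  | F => exact hr _
  | C => exact hr _
  | app s t ih1 ih2 => exact ha _ _ _ _ ih1 ih2

theorem ap_congr {B : Tm V Q → Tm V Q → Prop} (hr : ∀ s, B s s)
    (ha : ∀ s s' t t', B s s' → B t t' → B (app s t) (app s' t')) (n : ℕ) (s : Tm V Q) :
    ∀ {x x' : Fin n → Tm V Q}, (∀ i, B (x i) (x' i)) → B (ap n s x) (ap n s x') := by
  induction n with
  | zero => intro x x' _; exact hr _
  | succ n ih => intro x x' h; exact ha _ _ _ _ (ih fun i => h _) (h _)

/-- the head -/
def hd : Tm V Q → Tm V Q
  | app s _ => hd s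
  | s => s

theorem hd_ap (n : ℕ) (s : Tm V Q) : ∀ x : Fin n → Tm V Q, hd (ap n s x) = hd s := by
  induction n with
  | zero => intro x; rfl
  | succ n ih => intro x; exact ih _

theorem hd_ap_con (n : ℕ) (q : Q) (x : Fin n → Tm V Q) : hd (ap n (con q) x) = con q :=
  hd_ap n _ x

theorem C_ne (n : ℕ) (q : Q) (x : Fin n → Tm V Q) : C ≠ ap n (con q) x := by
  intro h
  have := congrArg hd h
  rw [hd_ap_con] at this
  cases this

theorem C1_ne (n : ℕ) (q : Q) (x : Fin n → Tm V Q) (a : Tm V Q) : app C a ≠ ap n (con q) x := by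
  intro h
  have := congrArg hd h
  rw [hd_ap_con] at this
  cases this

theorem C2_ne (n : ℕ) (q : Q) (x : Fin n → Tm V Q) (a b : Tm V Q) :
    app (app C a) b ≠ ap n (con q) x := by
  intro h
  have := congrArg hd h
  rw [hd_ap_con] at this
  cases this

theorem ap_con_inj {q : Q} (n : ℕ) : ∀ {x y : Fin n → Tm V Q},
    ap n (con q) x = ap n (con q) y → x = y := by
  induction n with
  | zero => intro x y _; funext i; exact i.elim0
  | succ n ih =>
    intro x y h
    have h1 : ap n (con q) (fun i => x i.castSucc) = ap n (con q) (fun i => y i.castSucc) ∧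
        x (Fin.last n) = y (Fin.last n) := by
      simpa [ap] using h
    have h2 := ih h1.1
    funext i
    refine Fin.lastCases h1.2 (fun j => ?_) i
    exact congrFun h2 j

/-- number of arguments -/
def sz : Tm V Q → ℕ
  | app s _ => sz s + 1
  | _ => 0

theorem sz_ap (n : ℕ) (q : Q) : ∀ x : Fin n → Tm V Q, sz (ap n (con q) x) = n := by
  induction n with
  | zero => intro x; rfl
  | succ n ih => intro x; exact congrArg (· + 1) (ih _)

/-- stack of arguments -/
def stk : (n : ℕ) → (Fin n → Tm V Q) → List (Tm V Q) → List (Tm V Q)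
  | 0, _, l => l
  | n + 1, x, l => stk n (fun i => x i.castSucc) (x (Fin.last n) :: l)

theorem stk_inj (n : ℕ) : ∀ {x y : Fin n → Tm V Q} {l m : List (Tm V Q)},
    stk n x l = stk n y m → x = y ∧ l = m := by
  induction n with
  | zero => intro x y l m h; exact ⟨funext fun i => i.elim0, h⟩
  | succ n ih =>
    intro x y l m h
    obtain ⟨h1, h2⟩ := ih h
    obtain ⟨h3, h4⟩ := List.cons_eq_cons.1 h2
    refine ⟨?_, h4⟩
    funext i
    refine Fin.lastCases h3 (fun j => ?_) i
    exact congrFun h1 j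

theorem forall2_stk {B : Tm V Q → Tm V Q → Prop} (n : ℕ) : ∀ {x : Fin n → Tm V Q}
    {l m : List (Tm V Q)}, List.Forall₂ B (stk n x l) m →
    ∃ x' l', m = stk n x' l' ∧ (∀ i, B (x i) (x' i)) ∧ List.Forall₂ B l l' := by
  induction n with
  | zero => intro x l m h; exact ⟨x, m, rfl, fun i => i.elim0, h⟩
  | succ n ih =>
    intro x l m h
    obtain ⟨x', l', h1, h2, h3⟩ := ih h
    cases h3 with
    | cons h4 h5 =>
      rename_i b l''
      refine ⟨Fin.snoc x' b, l'', ?_, ?_, h5⟩
      · rw [h1]
        simp [stk]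
      · intro i
        refine Fin.lastCases ?_ (fun j => ?_) i
        · simpa using h4
        · simpa using h2 j

theorem forall2_stk' {B : Tm V Q → Tm V Q → Prop} (n : ℕ) : ∀ {x : Fin n → Tm V Q}
    {l m : List (Tm V Q)}, List.Forall₂ B m (stk n x l) →
    ∃ x' l', m = stk n x' l' ∧ (∀ i, B (x' i) (x i)) ∧ List.Forall₂ B l' l := by
  induction n with
  | zero => intro x l m h; exact ⟨x, m, rfl, fun i => i.elim0, h⟩
  | succ n ih =>
    intro x l m h
    obtain ⟨x', l', h1, h2, h3⟩ := ih h
    cases h3 with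
    | cons h4 h5 =>
      rename_i b l''
      refine ⟨Fin.snoc x' b, l'', ?_, ?_, h5⟩
      · rw [h1]
        simp [stk]
      · intro i
        refine Fin.lastCases ?_ (fun j => ?_) i
        · simpa using h4
        · simpa using h2 j

/-! ### the levels -/

theorem StepOf.mono {c d : Tm V Q → Tm V Q → Prop} (hcd : ∀ x y, c x y → d x y) {s t : Tm V Q}
    (h : StepOf M c s t) : StepOf M d s t := by
  induction h with
  | comb q x => exact .comb q x
  | ruleCT x y => exact .ruleCT x y
  | ruleCF x y => exact .ruleCF x y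
  | ruleC z x y h => exact .ruleC z x y (hcd _ _ h)
  | left s s' t _ ih => exact .left _ _ _ ih
  | right s t t' _ ih => exact .right _ _ _ ih

variable (M) in
/-- primitive steps -/
abbrev P1 : Tm V Q → Tm V Q → Prop := StepOf M Eq

variable (M) in
/-- convertibility -/
abbrev E : Tm V Q → Tm V Q → Prop := EqvGen (P1 M)

variable (M) in
/-- steps of the system -/
abbrev R : Tm V Q → Tm V Q → Prop := StepOf M (E M)

theorem E.appL {s s' : Tm V Q} (t : Tm V Q) (h1 : E M s s') : E M (app s t) (app s' t) := by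
  induction h1 with
  | rel x y h => exact .rel _ _ (.left _ _ _ h)
  | refl x => exact .refl _
  | symm x y _ ih => exact .symm _ _ ih
  | trans x y z _ _ ih1 ih2 => exact .trans _ _ _ ih1 ih2

theorem E.appR (s : Tm V Q) {t t' : Tm V Q} (h2 : E M t t') : E M (app s t) (app s t') := by
  induction h2 with
  | rel x y h => exact .rel _ _ (.right _ _ _ h)
  | refl x => exact .refl _
  | symm x y _ ih => exact .symm _ _ ih
  | trans x y z _ _ ih1 ih2 => exact .trans _ _ _ ih1 ih2

theorem E.app' {s s' t t' : Tm V Q} (h1 : E M s s') (h2 : E M t t') :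
    E M (app s t) (app s' t') :=
  .trans _ _ _ (E.appL t h1) (E.appR s' h2)

theorem E.cond {z x y : Tm V Q} (h : E M x y) : E M (app (app (app C z) x) y) x :=
  .trans _ _ _ (E.app' (.refl _) (.symm _ _ h)) (.rel _ _ (.ruleC z x x rfl))

theorem R.toE {s t : Tm V Q} (h : R M s t) : E M s t := by
  induction h with
  | comb q x => exact .rel _ _ (.comb q x)
  | ruleCT x y => exact .rel _ _ (.ruleCT x y)
  | ruleCF x y => exact .rel _ _ (.ruleCF x y)
  | ruleC z x y h => exact E.cond h
  | left s s' t _ ih => exact E.app' ih (.refl _)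
  | right s t t' _ ih => exact E.app' (.refl _) ih

theorem P1.toR {s t : Tm V Q} (h : P1 M s t) : R M s t :=
  StepOf.mono (fun x y hxy => by subst hxy; exact .refl _) h

theorem eqvGen_le {r : Tm V Q → Tm V Q → Prop} (h : ∀ x y, r x y → E M x y) {s t : Tm V Q}
    (hst : EqvGen r s t) : E M s t := by
  induction hst with
  | rel x y hxy => exact h _ _ hxy
  | refl x => exact .refl _
  | symm x y _ ih => exact .symm _ _ ih
  | trans x y z _ _ ih1 ih2 => exact .trans _ _ _ ih1 ih2

theorem eqvGen_mono' {r r' : Tm V Q → Tm V Q → Prop} (h : ∀ x y, r x y → r' x y) {s t : Tm V Q}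
    (hst : EqvGen r s t) : EqvGen r' s t := by
  induction hst with
  | rel x y hxy => exact .rel _ _ (h _ _ hxy)
  | refl x => exact .refl _
  | symm x y _ ih => exact .symm _ _ ih
  | trans x y z _ _ ih1 ih2 => exact .trans _ _ _ ih1 ih2

theorem level_toR (n : ℕ) : ∀ s t : Tm V Q, level M n s t → R M s t := by
  induction n with
  | zero => intro s t h; exact h.elim
  | succ n ih =>
    intro s t h
    exact StepOf.mono (fun _ _ hxy => eqvGen_le (fun a b hab => R.toE (ih a b hab)) hxy) h

theorem P1.toLevel {s t : Tm V Q} (h : P1 M s t) : level M 1 s t :=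
  StepOf.mono (fun x y hxy => by subst hxy; exact .refl _) h

theorem R.toLevel {s t : Tm V Q} (h : R M s t) : level M 2 s t :=
  StepOf.mono (fun _ _ hxy => eqvGen_mono' (fun _ _ hab => P1.toLevel hab) hxy) h

theorem step_iff {s t : Tm V Q} : Step M s t ↔ R M s t :=
  ⟨fun ⟨n, h⟩ => level_toR n s t h, fun h => ⟨2, R.toLevel h⟩⟩

/-! ### `T` and `F` are not convertible -/

variable (M) in
/-- stack machine evaluation -/
inductive Ev : ℕ → Tm V Q → List (Tm V Q) → Bool → Prop
  | T (n : ℕ) : Ev n T [] true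
  | F (n : ℕ) : Ev n F [] false
  | app (n : ℕ) (s t : Tm V Q) (l : List (Tm V Q)) (b : Bool) (h : Ev n s (t :: l) b) :
      Ev (n + 1) (app s t) l b
  | con (n : ℕ) (q : Q) (x : Fin (M.ar q + 1) → Tm V Q) (l m : List (Tm V Q)) (b : Bool)
      (hm : m = stk (M.ar q + 1) x l) (h : Ev n (inst (M.rhs q) x) l b) :
      Ev (n + 1) (con q) m b
  | CT (n : ℕ) (z x y : Tm V Q) (l : List (Tm V Q)) (b : Bool) (hz : Ev n z [] true)
      (h : Ev n x l b) : Ev (n + 1) C (z :: x :: y :: l) b
  | CF (n : ℕ) (z x y : Tm V Q) (l : List (Tm V Q)) (b : Bool) (hz : Ev n z [] false)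
      (h : Ev n y l b) : Ev (n + 1) C (z :: x :: y :: l) b
  | CB (n : ℕ) (z x y : Tm V Q) (l : List (Tm V Q)) (b : Bool) (hx : Ev n x l b)
      (hy : Ev n y l b) : Ev (n + 1) C (z :: x :: y :: l) b

theorem Ev.succ {n : ℕ} {s : Tm V Q} {l : List (Tm V Q)} {b : Bool} (h : Ev M n s l b) :
    Ev M (n + 1) s l b := by
  induction h with
  | T n => exact .T _
  | F n => exact .F _
  | app n s t l b _ ih => exact .app _ _ _ _ _ ih
  | con n q x l m b hm _ ih => exact .con _ _ _ _ _ _ hm ih
  | CT n z x y l b _ _ ih1 ih2 => exact .CT _ _ _ _ _ _ ih1 ih2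
  | CF n z x y l b _ _ ih1 ih2 => exact .CF _ _ _ _ _ _ ih1 ih2
  | CB n z x y l b _ _ ih1 ih2 => exact .CB _ _ _ _ _ _ ih1 ih2

theorem Ev.mono {n m : ℕ} (hnm : n ≤ m) {s : Tm V Q} {l : List (Tm V Q)} {b : Bool}
    (h : Ev M n s l b) : Ev M m s l b := by
  induction hnm with
  | refl => exact h
  | step _ ih => exact ih.succ

variable (M) in
/-- evaluation -/
def Evl (s : Tm V Q) (l : List (Tm V Q)) (b : Bool) : Prop := ∃ n, Ev M n s l b

theorem Evl.app {s t : Tm V Q} {l : List (Tm V Q)} {b : Bool} (h : Evl M s (t :: l) b) :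
    Evl M (app s t) l b := by
  obtain ⟨n, h⟩ := h; exact ⟨n + 1, .app _ _ _ _ _ h⟩

theorem Evl.con {q : Q} {x : Fin (M.ar q + 1) → Tm V Q} {l : List (Tm V Q)} {b : Bool}
    (h : Evl M (inst (M.rhs q) x) l b) : Evl M (con q) (stk (M.ar q + 1) x l) b := by
  obtain ⟨n, h⟩ := h; exact ⟨n + 1, .con _ _ _ _ _ _ rfl h⟩

theorem Evl.CT {z x : Tm V Q} (y : Tm V Q) {l : List (Tm V Q)} {b : Bool} (hz : Evl M z [] true)
    (h : Evl M x l b) : Evl M C (z :: x :: y :: l) b := by
  obtain ⟨n, hz⟩ := hz
  obtain ⟨m, h⟩ := h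
  exact ⟨max n m + 1, .CT _ _ _ _ _ _ (hz.mono (le_max_left _ _)) (h.mono (le_max_right _ _))⟩

theorem Evl.CF {z : Tm V Q} (x : Tm V Q) {y : Tm V Q} {l : List (Tm V Q)} {b : Bool}
    (hz : Evl M z [] false)
    (h : Evl M y l b) : Evl M C (z :: x :: y :: l) b := by
  obtain ⟨n, hz⟩ := hz
  obtain ⟨m, h⟩ := h
  exact ⟨max n m + 1, .CF _ _ _ _ _ _ (hz.mono (le_max_left _ _)) (h.mono (le_max_right _ _))⟩

theorem Evl.CB (z : Tm V Q) {x y : Tm V Q} {l : List (Tm V Q)} {b : Bool} (hx : Evl M x l b)
    (h : Evl M y l b) : Evl M C (z :: x :: y :: l) b := by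
  obtain ⟨n, hx⟩ := hx
  obtain ⟨m, h⟩ := h
  exact ⟨max n m + 1, .CB _ _ _ _ _ _ (hx.mono (le_max_left _ _)) (h.mono (le_max_right _ _))⟩

theorem Evl.T_true : Evl M (T : Tm V Q) [] true := ⟨0, .T 0⟩
theorem Evl.F_false : Evl M (F : Tm V Q) [] false := ⟨0, .F 0⟩

theorem not_T_false : ¬ Evl M (T : Tm V Q) [] false := by
  rintro ⟨n, h⟩; cases h

theorem not_F_true : ¬ Evl M (F : Tm V Q) [] true := by
  rintro ⟨n, h⟩; cases h

theorem Evl.app_inv {s t : Tm V Q} {l : List (Tm V Q)} {b : Bool}
    (h : Evl M (Tm.app s t) l b) : Evl M s (t :: l) b := by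
  obtain ⟨n, h⟩ := h
  cases h with
  | app n s t l b h => exact ⟨_, h⟩

theorem Evl.con_inv {q : Q} {x : Fin (M.ar q + 1) → Tm V Q} {l : List (Tm V Q)} {b : Bool}
    (h : Evl M (Tm.con q) (stk (M.ar q + 1) x l) b) : Evl M (inst (M.rhs q) x) l b := by
  obtain ⟨n, h⟩ := h
  cases h with
  | con n q x' l' m b hm h =>
    obtain ⟨rfl, rfl⟩ := stk_inj _ hm
    exact ⟨_, h⟩

theorem Evl.C_inv {z x y : Tm V Q} {l : List (Tm V Q)} {b : Bool}
    (h : Evl M Tm.C (z :: x :: y :: l) b) :
    (Evl M z [] true ∧ Evl M x l b) ∨ (Evl M z [] false ∧ Evl M y l b) ∨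
      (Evl M x l b ∧ Evl M y l b) := by
  obtain ⟨n, h⟩ := h
  cases h with
  | CT n z x y l b h1 h2 => exact Or.inl ⟨⟨_, h1⟩, ⟨_, h2⟩⟩
  | CF n z x y l b h1 h2 => exact Or.inr (Or.inl ⟨⟨_, h1⟩, ⟨_, h2⟩⟩)
  | CB n z x y l b h1 h2 => exact Or.inr (Or.inr ⟨⟨_, h1⟩, ⟨_, h2⟩⟩)

theorem Evl.ap_iff {s : Tm V Q} {b : Bool} (n : ℕ) : ∀ {x : Fin n → Tm V Q} {l : List (Tm V Q)},
    Evl M (ap n s x) l b ↔ Evl M s (stk n x l) b := by
  induction n with
  | zero => intro x l; exact Iff.rfl
  | succ n ih =>
    intro x l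
    change Evl M (Tm.app _ _) l b ↔ Evl M s (stk n _ (_ :: l)) b
    rw [← ih]
    exact ⟨Evl.app_inv, Evl.app⟩

variable (M) in
/-- parallel contraction -/
inductive Par : Tm V Q → Tm V Q → Prop
  | refl (s : Tm V Q) : Par s s
  | app (s s' t t' : Tm V Q) (h1 : Par s s') (h2 : Par t t') : Par (app s t) (app s' t')
  | con (q : Q) (x x' : Fin (M.ar q + 1) → Tm V Q) (s t r : Tm V Q)
      (hs : s = ap (M.ar q) (con q) (fun i => x i.castSucc)) (ht : t = x (Fin.last _))
      (hr : r = inst (M.rhs q) x') (h : ∀ i, Par (x i) (x' i)) : Par (app s t) r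
  | CT (x x' y : Tm V Q) (h : Par x x') : Par (app (app (app C T) x) y) x'
  | CF (x y y' : Tm V Q) (h : Par y y') : Par (app (app (app C F) x) y) y'
  | G (w a b c : Tm V Q) (h1 : Par a c) (h2 : Par b c) : Par (app (app (app C w) a) b) c

theorem P1.toPar {s t : Tm V Q} (h : P1 M s t) : Par M s t := by
  induction h with
  | comb q x => exact .con q x x _ _ _ rfl rfl rfl (fun _ => .refl _)
  | ruleCT x y => exact .CT _ _ _ (.refl _)
  | ruleCF x y => exact .CF _ _ _ (.refl _)
  | ruleC z x y h => subst h; exact .G _ _ _ _ (.refl _) (.refl _)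
  | left s s' t _ ih => exact .app _ _ _ _ ih (.refl _)
  | right s t t' _ ih => exact .app _ _ _ _ (.refl _) ih

theorem Par.forward {n : ℕ} {s : Tm V Q} {l : List (Tm V Q)} {b : Bool} (h : Ev M n s l b) :
    ∀ s' l', Par M s s' → List.Forall₂ (Par M) l l' → Evl M s' l' b := by
  induction h with
  | T n =>
    intro s' l' hs hl
    cases hs; cases hl; exact Evl.T_true
  | F n =>
    intro s' l' hs hl
    cases hs; cases hl; exact Evl.F_false
  | app n s t l b _ ih =>
    intro s' l' hs hl
    cases hs with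
    | refl => exact Evl.app (ih _ _ (.refl _) (.cons (.refl _) hl))
    | app _ p _ q h1 h2 => exact Evl.app (ih _ _ h1 (.cons h2 hl))
    | con q x x' _ _ _ hs ht hr h =>
      subst hs ht hr
      have h3 := ih (ap (M.ar q) (Tm.con q) (fun i => x' i.castSucc)) (x' (Fin.last _) :: l')
        (ap_congr (.refl ·) (fun _ _ _ _ h1 h2 => .app _ _ _ _ h1 h2) _ _ fun i => h _)
        (.cons (h _) hl)
      rw [Evl.ap_iff] at h3
      exact Evl.con_inv h3
    | CT x _ _ h =>
      have := Evl.C_inv (Evl.app_inv (Evl.app_inv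
        (ih _ _ (.app _ _ _ _ (.refl _) h) (.cons (.refl _) hl))))
      rcases this with ⟨_, h⟩ | ⟨h, _⟩ | ⟨h, _⟩
      · exact h
      · exact (not_T_false h).elim
      · exact h
    | CF x _ _ h =>
      have := Evl.C_inv (Evl.app_inv (Evl.app_inv
        (ih _ _ (.refl _) (.cons h hl))))
      rcases this with ⟨h, _⟩ | ⟨_, h⟩ | ⟨_, h⟩
      · exact (not_F_true h).elim
      · exact h
      · exact h
    | G w a _ c h1 h2 =>
      have := Evl.C_inv (Evl.app_inv (Evl.app_inv
        (ih _ _ (.app _ _ _ _ (.refl _) h1) (.cons h2 hl))))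
      rcases this with ⟨_, h⟩ | ⟨_, h⟩ | ⟨_, h⟩
      · exact h
      · exact h
      · exact h
  | con n q x l m b hm _ ih =>
    intro s' l' hs hl
    cases hs
    subst hm
    obtain ⟨x', l'', rfl, h1, h2⟩ := forall2_stk _ hl
    exact Evl.con (ih _ _ (inst_congr (.refl ·) (fun _ _ _ _ h1 h2 => .app _ _ _ _ h1 h2) _ h1) h2)
  | CT n z x y l b _ _ ih1 ih2 =>
    intro s' l' hs hl
    cases hs
    cases hl with
    | cons h1 h2 =>
      cases h2 with
      | cons h2 h3 =>
        cases h3 with
        | cons h3 h4 => exact Evl.CT _ (ih1 _ _ h1 .nil) (ih2 _ _ h2 h4)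
  | CF n z x y l b _ _ ih1 ih2 =>
    intro s' l' hs hl
    cases hs
    cases hl with
    | cons h1 h2 =>
      cases h2 with
      | cons h2 h3 =>
        cases h3 with
        | cons h3 h4 => exact Evl.CF _ (ih1 _ _ h1 .nil) (ih2 _ _ h3 h4)
  | CB n z x y l b _ _ ih1 ih2 =>
    intro s' l' hs hl
    cases hs
    cases hl with
    | cons h1 h2 =>
      cases h2 with
      | cons h2 h3 =>
        cases h3 with
        | cons h3 h4 => exact Evl.CB _ (ih1 _ _ h2 h4) (ih2 _ _ h3 h4)

theorem back_refl (n : ℕ) (IH : ∀ m < n, ∀ s s' : Tm V Q, Par M s s' →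
    ∀ (l l' : List (Tm V Q)) (b : Bool), List.Forall₂ (Par M) l l' → Ev M m s' l' b →
      Evl M s l b) (s : Tm V Q) (l l' : List (Tm V Q)) (b : Bool)
    (hl : List.Forall₂ (Par M) l l') (he : Ev M n s l' b) : Evl M s l b := by
  cases he with
  | T n => cases hl; exact Evl.T_true
  | F n => cases hl; exact Evl.F_false
  | app n s t _ _ h =>
    exact Evl.app (IH n (by omega) _ _ (.refl _) _ _ _ (.cons (.refl _) hl) h)
  | con n q x l' _ _ hm h =>
    subst hm
    obtain ⟨x', l'', rfl, h1, h2⟩ := forall2_stk' _ hl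
    exact Evl.con (IH n (by omega) _ _
      (inst_congr (.refl ·) (fun _ _ _ _ h1 h2 => .app _ _ _ _ h1 h2) _ h1) _ _ _ h2 h)
  | CT n z x y l' _ hz h =>
    cases hl with
    | cons h1 h2 =>
      cases h2 with
      | cons h2 h3 =>
        cases h3 with
        | cons h3 h4 =>
          exact Evl.CT _ (IH n (by omega) _ _ h1 _ _ _ .nil hz)
            (IH n (by omega) _ _ h2 _ _ _ h4 h)
  | CF n z x y l' _ hz h =>
    cases hl with
    | cons h1 h2 =>
      cases h2 with
      | cons h2 h3 =>
        cases h3 with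
        | cons h3 h4 =>
          exact Evl.CF _ (IH n (by omega) _ _ h1 _ _ _ .nil hz)
            (IH n (by omega) _ _ h3 _ _ _ h4 h)
  | CB n z x y l' _ hx hy =>
    cases hl with
    | cons h1 h2 =>
      cases h2 with
      | cons h2 h3 =>
        cases h3 with
        | cons h3 h4 =>
          exact Evl.CB _ (IH n (by omega) _ _ h2 _ _ _ h4 hx)
            (IH n (by omega) _ _ h3 _ _ _ h4 hy)

theorem Par.backward (n : ℕ) : ∀ (s s' : Tm V Q), Par M s s' → ∀ (l l' : List (Tm V Q)) (b : Bool),
    List.Forall₂ (Par M) l l' → Ev M n s' l' b → Evl M s l b := by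
  induction n using Nat.strong_induction_on with
  | _ n IH =>
  intro s s' hs
  induction hs with
  | refl s => exact back_refl n IH s
  | app s s' t t' h1 h2 _ _ =>
    intro l l' b hl he
    cases he with
    | app n _ _ _ _ h => exact Evl.app (IH n (by omega) _ _ h1 _ _ _ (.cons h2 hl) h)
  | con q x x' s t r hs ht hr h ih =>
    intro l l' b hl he
    subst hs ht hr
    have key : ∀ (r : Tm (Fin (M.ar q + 1)) Q) (l l' : List (Tm V Q)) (b : Bool),
        List.Forall₂ (Par M) l l' → Ev M n (inst r x') l' b → Evl M (inst r x) l b := by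
      intro r l l' b hl he
      cases r with
      | var v => exact ih v _ _ _ hl he
      | con q => exact back_refl n IH _ _ _ _ hl he
      | T => exact back_refl n IH _ _ _ _ hl he
      | F => exact back_refl n IH _ _ _ _ hl he
      | C => exact back_refl n IH _ _ _ _ hl he
      | app s t =>
        have he' : Ev M n (Tm.app (inst s x') (inst t x')) l' b := he
        cases he' with
        | app n _ _ _ _ h' =>
          exact Evl.app (IH n (by omega) _ _
            (inst_congr (.refl ·) (fun _ _ _ _ h1 h2 => .app _ _ _ _ h1 h2) s h) _ _ _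
            (.cons (inst_congr (.refl ·) (fun _ _ _ _ h1 h2 => .app _ _ _ _ h1 h2) t h) hl) h')
    have h2 := Evl.con (key _ _ _ _ hl he)
    rw [← Evl.ap_iff] at h2
    exact h2
  | CT x x' y _ ih =>
    intro l l' b hl he
    exact Evl.app (Evl.app (Evl.app (Evl.CT _ Evl.T_true (ih _ _ _ hl he))))
  | CF x y y' _ ih =>
    intro l l' b hl he
    exact Evl.app (Evl.app (Evl.app (Evl.CF _ Evl.F_false (ih _ _ _ hl he))))
  | G w a b' c _ _ ih1 ih2 =>
    intro l l' b hl he
    exact Evl.app (Evl.app (Evl.app (Evl.CB _ (ih1 _ _ _ hl he) (ih2 _ _ _ hl he))))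

theorem E.ev {s t : Tm V Q} (h : E M s t) : Evl M s [] true ↔ Evl M t [] true := by
  induction h with
  | rel x y h =>
    constructor
    · rintro ⟨n, hn⟩
      exact Par.forward hn _ _ (P1.toPar h) .nil
    · rintro ⟨n, hn⟩
      exact Par.backward n _ _ (P1.toPar h) _ _ _ .nil hn
  | refl x => exact Iff.rfl
  | symm x y _ ih => exact ih.symm
  | trans x y z _ _ ih1 ih2 => exact ih1.trans ih2

theorem not_E_T_F : ¬ E M (T : Tm V Q) F := fun h => not_F_true ((E.ev h).1 Evl.T_true)

/-! ### The auxiliary system -/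

variable (M) in
/-- steps of the auxiliary system -/
inductive U : Tm V Q → Tm V Q → Prop
  | con (q : Q) (x : Fin (M.ar q + 1) → Tm V Q) (s t r : Tm V Q)
      (hs : s = ap (M.ar q) (con q) (fun i => x i.castSucc)) (ht : t = x (Fin.last _))
      (hr : r = inst (M.rhs q) x) : U (app s t) r
  | CT (x y : Tm V Q) : U (app (app (app C T) x) y) x
  | CF (x y : Tm V Q) : U (app (app (app C F) x) y) y
  | G1 (z x y : Tm V Q) (h : E M x y) (hz : ¬ E M z F) : U (app (app (app C z) x) y) x
  | G2 (z x y : Tm V Q) (hz : E M z F) : U (app (app (app C z) x) y) y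
  | left (s s' t : Tm V Q) (h : U s s') : U (app s t) (app s' t)
  | right (s t t' : Tm V Q) (h : U t t') : U (app s t) (app s t')

theorem P1.toU {s t : Tm V Q} (h : P1 M s t) : U M s t := by
  induction h with
  | comb q x => exact .con q x _ _ _ rfl rfl rfl
  | ruleCT x y => exact .CT x y
  | ruleCF x y => exact .CF x y
  | ruleC z x y h =>
    subst h
    by_cases hz : E M z F
    · exact .G2 _ _ _ hz
    · exact .G1 _ _ _ (.refl _) hz
  | left s s' t _ ih => exact .left _ _ _ ih
  | right s t t' _ ih => exact .right _ _ _ ih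

theorem U.toE {s t : Tm V Q} (h : U M s t) : E M s t := by
  induction h with
  | con q x s t r hs ht hr => subst hs ht hr; exact .rel _ _ (.comb q x)
  | CT x y => exact .rel _ _ (.ruleCT x y)
  | CF x y => exact .rel _ _ (.ruleCF x y)
  | G1 z x y h _ => exact E.cond h
  | G2 z x y hz =>
    exact .trans _ _ _ (E.app' (E.app' (E.app' (.refl _) hz) (.refl _)) (.refl _))
      (.rel _ _ (.ruleCF x y))
  | left s s' t _ ih => exact E.app' ih (.refl _)
  | right s t t' _ ih => exact E.app' (.refl _) ih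

theorem rtg_app {B : Tm V Q → Tm V Q → Prop}
    (hl : ∀ s s' t, B s s' → B (app s t) (app s' t))
    (hr : ∀ s t t', B t t' → B (app s t) (app s t'))
    {s s' t t' : Tm V Q} (h1 : ReflTransGen B s s') (h2 : ReflTransGen B t t') :
    ReflTransGen B (app s t) (app s' t') :=
  (h1.lift (fun a => app a t) (fun a b h => hl a b t h)).trans
    (h2.lift (fun a => app s' a) (fun a b h => hr s' a b h))

theorem U.rapp {s s' t t' : Tm V Q} (h1 : ReflTransGen (U M) s s')
    (h2 : ReflTransGen (U M) t t') : ReflTransGen (U M) (app s t) (app s' t') :=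
  rtg_app (fun _ _ _ h => .left _ _ _ h) (fun _ _ _ h => .right _ _ _ h) h1 h2

theorem R.rapp {s s' t t' : Tm V Q} (h1 : ReflTransGen (R M) s s')
    (h2 : ReflTransGen (R M) t t') : ReflTransGen (R M) (app s t) (app s' t') :=
  rtg_app (fun _ _ _ h => .left _ _ _ h) (fun _ _ _ h => .right _ _ _ h) h1 h2

theorem U.rinst {n : ℕ} (r : Tm (Fin n) Q) {x x' : Fin n → Tm V Q}
    (h : ∀ i, ReflTransGen (U M) (x i) (x' i)) :
    ReflTransGen (U M) (inst r x) (inst r x') :=
  inst_congr (fun _ => .refl) (fun _ _ _ _ h1 h2 => U.rapp h1 h2) r h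

theorem R.rinst {n : ℕ} (r : Tm (Fin n) Q) {x x' : Fin n → Tm V Q}
    (h : ∀ i, ReflTransGen (R M) (x i) (x' i)) :
    ReflTransGen (R M) (inst r x) (inst r x') :=
  inst_congr (fun _ => .refl) (fun _ _ _ _ h1 h2 => R.rapp h1 h2) r h

theorem rtg_toE {B : Tm V Q → Tm V Q → Prop} (hB : ∀ s t, B s t → E M s t) {s t : Tm V Q}
    (h : ReflTransGen B s t) : E M s t := by
  induction h with
  | refl => exact .refl _
  | tail _ h ih => exact .trans _ _ _ ih (hB _ _ h)

variable (M) in
/-- simulation relation -/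
inductive Sim : Tm V Q → Tm V Q → Prop
  | refl (s : Tm V Q) : Sim s s
  | app (s s' t t' : Tm V Q) (h1 : Sim s s') (h2 : Sim t t') : Sim (app s t) (app s' t')
  | con (q : Q) (x x' : Fin (M.ar q + 1) → Tm V Q) (s t r : Tm V Q)
      (hs : s = ap (M.ar q) (con q) (fun i => x i.castSucc)) (ht : t = x (Fin.last _))
      (hr : r = inst (M.rhs q) x') (h : ∀ i, Sim (x i) (x' i)) : Sim (app s t) r
  | CT (x x' y : Tm V Q) (h : Sim x x') : Sim (app (app (app C T) x) y) x'
  | CF (x y y' : Tm V Q) (h : Sim y y') : Sim (app (app (app C F) x) y) y'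
  | G (w a b X a' b' : Tm V Q) (ha : ReflTransGen (U M) X a') (hb : ReflTransGen (U M) X b')
      (h1 : Sim a a') (h2 : Sim b b') : Sim (app (app (app C w) a) b) X

theorem Sim.inst {n : ℕ} (r : Tm (Fin n) Q) {x x' : Fin n → Tm V Q}
    (h : ∀ i, Sim M (x i) (x' i)) : Sim M (AllCombinators.inst r x) (AllCombinators.inst r x') :=
  inst_congr (.refl ·) (fun _ _ _ _ h1 h2 => .app _ _ _ _ h1 h2) r h

theorem P1.toSim {s t : Tm V Q} (h : P1 M s t) : Sim M s t := by
  induction h with
  | comb q x => exact .con q x x _ _ _ rfl rfl rfl (fun _ => .refl _)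
  | ruleCT x y => exact .CT _ _ _ (.refl _)
  | ruleCF x y => exact .CF _ _ _ (.refl _)
  | ruleC z x y h => subst h; exact .G _ _ _ _ _ _ .refl .refl (.refl _) (.refl _)
  | left s s' t _ ih => exact .app _ _ _ _ ih (.refl _)
  | right s t t' _ ih => exact .app _ _ _ _ (.refl _) ih

theorem Sim.toE {s t : Tm V Q} (h : Sim M s t) : E M s t := by
  induction h with
  | refl s => exact .refl _
  | app s s' t t' _ _ ih1 ih2 => exact E.app' ih1 ih2
  | con q x x' s t r hs ht hr _ ih =>
    subst hs ht hr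
    exact .trans _ _ _ (.rel _ _ (.comb q x))
      (inst_congr (B := E M) (.refl ·) (fun _ _ _ _ h1 h2 => E.app' h1 h2) _ ih)
  | CT x x' y _ ih => exact .trans _ _ _ (.rel _ _ (.ruleCT x y)) ih
  | CF x y y' _ ih => exact .trans _ _ _ (.rel _ _ (.ruleCF x y)) ih
  | G w a b X a' b' ha hb _ _ ih1 ih2 =>
    have ea : E M X a' := rtg_toE (fun _ _ h => U.toE h) ha
    have eb : E M X b' := rtg_toE (fun _ _ h => U.toE h) hb
    have e1 : E M a X := .trans _ _ _ ih1 (.symm _ _ ea)
    have e2 : E M b X := .trans _ _ _ ih2 (.symm _ _ eb)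
    exact .trans _ _ _ (E.cond (.trans _ _ _ e1 (.symm _ _ e2))) e1

/-- partial applications of combinators simulate only argumentwise -/
theorem sim_ap_inv {q : Q} (k : ℕ) (hk : k ≤ M.ar q) : ∀ {x : Fin k → Tm V Q} {s' : Tm V Q},
    Sim M (ap k (con q) x) s' → ∃ x', s' = ap k (con q) x' ∧ ∀ i, Sim M (x i) (x' i) := by
  induction k with
  | zero =>
    intro x s' h
    have h' : Sim M (con q) s' := h
    cases h'
    exact ⟨x, rfl, fun i => i.elim0⟩
  | succ k ih =>
    intro x s' h
    have h' : Sim M (Tm.app (ap k (con q) (fun i => x i.castSucc)) (x (Fin.last k))) s' := h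
    generalize hu : ap k (con q) (fun i => x i.castSucc) = u at h'
    generalize hv : x (Fin.last k) = v at h'
    cases h' with
    | refl => subst hu hv; exact ⟨x, rfl, fun _ => .refl _⟩
    | app _ s1 _ t1 h1 h2 =>
      subst hu hv
      obtain ⟨x', rfl, h3⟩ := ih (by omega) h1
      refine ⟨Fin.snoc x' t1, by simp [ap], fun i => ?_⟩
      refine Fin.lastCases ?_ (fun j => ?_) i
      · simpa using h2
      · simpa using h3 j
    | con q' y y' _ _ _ hs ht hr _ =>
      exfalso
      rw [← hu] at hs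
      have h1 := congrArg hd hs
      rw [hd_ap_con, hd_ap_con] at h1
      cases h1
      have h2 := congrArg sz hs
      rw [sz_ap, sz_ap] at h2
      omega
    | CT _ _ _ _ => exact absurd hu.symm (C2_ne _ _ _ _ _)
    | CF _ _ _ _ => exact absurd hu.symm (C2_ne _ _ _ _ _)
    | G _ _ _ _ _ _ _ _ _ _ => exact absurd hu.symm (C2_ne _ _ _ _ _)

/-- a step in a partial application of a combinator is a step in an argument -/
theorem u_ap_inv {q : Q} (k : ℕ) (hk : k ≤ M.ar q) : ∀ {x : Fin k → Tm V Q} {s' : Tm V Q},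
    U M (ap k (con q) x) s' → ∃ x' j, s' = ap k (con q) x' ∧ U M (x j) (x' j) ∧
      ∀ i, i ≠ j → x' i = x i := by
  induction k with
  | zero =>
    intro x s' h
    have h' : U M (con q) s' := h
    cases h'
  | succ k ih =>
    intro x s' h
    have h' : U M (Tm.app (ap k (con q) (fun i => x i.castSucc)) (x (Fin.last k))) s' := h
    generalize hu : ap k (con q) (fun i => x i.castSucc) = u at h'
    generalize hv : x (Fin.last k) = v at h'
    cases h' with
    | con q' y _ _ _ hs ht hr =>
      exfalso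
      rw [← hu] at hs
      have h1 := congrArg hd hs
      rw [hd_ap_con, hd_ap_con] at h1
      cases h1
      have h2 := congrArg sz hs
      rw [sz_ap, sz_ap] at h2
      omega
    | CT _ _ => exact absurd hu.symm (C2_ne _ _ _ _ _)
    | CF _ _ => exact absurd hu.symm (C2_ne _ _ _ _ _)
    | G1 _ _ _ _ _ => exact absurd hu.symm (C2_ne _ _ _ _ _)
    | G2 _ _ _ _ => exact absurd hu.symm (C2_ne _ _ _ _ _)
    | left _ s1 _ h1 =>
      subst hu hv
      obtain ⟨x', j, rfl, h3, h4⟩ := ih (by omega) h1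
      refine ⟨Fin.snoc x' (x (Fin.last k)), j.castSucc, by simp [ap], by simpa using h3, ?_⟩
      intro i
      refine Fin.lastCases ?_ (fun i' => ?_) i
      · intro _; simp
      · intro hne
        have : i' ≠ j := fun h => hne (by rw [h])
        simpa using h4 i' this
    | right _ _ t1 h1 =>
      subst hu hv
      refine ⟨Fin.snoc (fun i => x i.castSucc) t1, Fin.last k, by simp [ap], by simpa using h1, ?_⟩
      intro i
      refine Fin.lastCases ?_ (fun i' => ?_) i
      · intro h; exact absurd rfl h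
      · intro _; simp

theorem Sim.step {s t : Tm V Q} (h : Sim M s t) :
    ∀ s', U M s s' → ∃ t', ReflTransGen (U M) t t' ∧ Sim M s' t' := by
  induction h with
  | refl s => intro s' h; exact ⟨s', .single h, .refl _⟩
  | app s s' t t' h1 h2 ih1 ih2 =>
    intro r hr
    cases hr with
    | con q x _ _ _ hs ht hr =>
      subst hs ht hr
      obtain ⟨x', rfl, h3⟩ := sim_ap_inv _ le_rfl h1
      refine ⟨AllCombinators.inst (M.rhs q) (Fin.snoc x' t'), .single (.con q (Fin.snoc x' t') _ _ _
        (by simp) (by simp) rfl), Sim.inst _ fun i => ?_⟩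
      refine Fin.lastCases ?_ (fun j => ?_) i
      · simpa using h2
      · simpa using h3 j
    | CT x y =>
      cases h1 with
      | refl => exact ⟨_, .single (.CT _ _), .refl _⟩
      | app _ _ _ x' h3 h4 =>
        cases h3 with
        | refl => exact ⟨_, .single (.CT _ _), h4⟩
        | app _ _ _ _ h5 h6 =>
          cases h5
          cases h6
          exact ⟨_, .single (.CT _ _), h4⟩
        | con _ _ _ _ _ _ hs _ _ _ => exact absurd hs (C_ne _ _ _)
      | con _ _ _ _ _ _ hs _ _ _ => exact absurd hs (C1_ne _ _ _ _)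
    | CF x y =>
      cases h1 with
      | refl => exact ⟨_, .single (.CF _ _), h2⟩
      | app _ _ _ x' h3 h4 =>
        cases h3 with
        | refl => exact ⟨_, .single (.CF _ _), h2⟩
        | app _ _ _ _ h5 h6 =>
          cases h5
          cases h6
          exact ⟨_, .single (.CF _ _), h2⟩
        | con _ _ _ _ _ _ hs _ _ _ => exact absurd hs (C_ne _ _ _)
      | con _ _ _ _ _ _ hs _ _ _ => exact absurd hs (C1_ne _ _ _ _)
    | G1 z _ y h hz =>
      have key : ∃ z' x', s' = Tm.app (Tm.app Tm.C z') x' ∧ Sim M z z' ∧ Sim M r x' := by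
        cases h1 with
        | refl => exact ⟨_, _, rfl, .refl _, .refl _⟩
        | app _ _ _ x' h3 h4 =>
          cases h3 with
          | refl => exact ⟨_, _, rfl, .refl _, h4⟩
          | app _ _ _ z' h5 h6 =>
            cases h5
            exact ⟨_, _, rfl, h6, h4⟩
          | con _ _ _ _ _ _ hs _ _ _ => exact absurd hs (C_ne _ _ _)
        | con _ _ _ _ _ _ hs _ _ _ => exact absurd hs (C1_ne _ _ _ _)
      obtain ⟨z', x', rfl, hz', hx'⟩ := key
      exact ⟨x', .single (.G1 _ _ _
        (.trans _ _ _ (.symm _ _ hx'.toE) (.trans _ _ _ h h2.toE))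
        (fun hh => hz (.trans _ _ _ hz'.toE hh))), hx'⟩
    | G2 z x0 y hz =>
      have key : ∃ z' x', s' = Tm.app (Tm.app Tm.C z') x' ∧ Sim M z z' ∧ Sim M x0 x' := by
        cases h1 with
        | refl => exact ⟨_, _, rfl, .refl _, .refl _⟩
        | app _ _ _ x' h3 h4 =>
          cases h3 with
          | refl => exact ⟨_, _, rfl, .refl _, h4⟩
          | app _ _ _ z' h5 h6 =>
            cases h5
            exact ⟨_, _, rfl, h6, h4⟩
          | con _ _ _ _ _ _ hs _ _ _ => exact absurd hs (C_ne _ _ _)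
        | con _ _ _ _ _ _ hs _ _ _ => exact absurd hs (C1_ne _ _ _ _)
      obtain ⟨z', x', rfl, hz', hx'⟩ := key
      exact ⟨t', .single (.G2 _ _ _ (.trans _ _ _ (.symm _ _ hz'.toE) hz)), h2⟩
    | left _ s1 _ h =>
      obtain ⟨s1', hs1, hs2⟩ := ih1 _ h
      exact ⟨_, U.rapp hs1 .refl, .app _ _ _ _ hs2 h2⟩
    | right _ _ t1 h =>
      obtain ⟨t1', ht1, ht2⟩ := ih2 _ h
      exact ⟨_, U.rapp .refl ht1, .app _ _ _ _ h1 ht2⟩
  | con q x x' s t r0 hs ht hr0 h ih =>
    intro r hr
    subst hr0
    -- steps inside the redex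
    have inner : ∀ (y : Fin (M.ar q + 1) → Tm V Q) (j : Fin (M.ar q + 1)),
        U M (x j) (y j) → (∀ i, i ≠ j → y i = x i) →
        ∃ t', ReflTransGen (U M) (AllCombinators.inst (M.rhs q) x') t' ∧
          Sim M (Tm.app (ap (M.ar q) (Tm.con q) (fun i => y i.castSucc)) (y (Fin.last _))) t' := by
      classical
      intro y j hj hne
      obtain ⟨w, hw1, hw2⟩ := ih j _ hj
      refine ⟨AllCombinators.inst (M.rhs q) (Function.update x' j w), U.rinst _ fun i => ?_,
        .con q y _ _ _ _ rfl rfl rfl fun i => ?_⟩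
      · by_cases hij : i = j
        · subst hij; simpa using hw1
        · rw [Function.update_of_ne hij]
      · by_cases hij : i = j
        · subst hij; simpa using hw2
        · rw [Function.update_of_ne hij, hne i hij]; exact h i
    cases hr with
    | con q' y _ _ _ hs' ht' hr =>
      have h1 := congrArg hd (hs.symm.trans hs')
      rw [hd_ap_con, hd_ap_con] at h1
      cases h1
      have h2 := ap_con_inj _ (hs.symm.trans hs')
      have h3 : x = y := by
        funext i
        refine Fin.lastCases (ht.symm.trans ht') (fun j => ?_) i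
        exact congrFun h2 j
      subst h3 hr
      exact ⟨_, .refl, Sim.inst _ h⟩
    | CT _ _ => exact absurd hs (C2_ne _ _ _ _ _)
    | CF _ _ => exact absurd hs (C2_ne _ _ _ _ _)
    | G1 _ _ _ _ _ => exact absurd hs (C2_ne _ _ _ _ _)
    | G2 _ _ _ _ => exact absurd hs (C2_ne _ _ _ _ _)
    | left _ s1 _ h1 =>
      subst hs ht
      obtain ⟨y, j, rfl, h3, h4⟩ := u_ap_inv _ le_rfl h1
      have h5 := inner (Fin.snoc y (x (Fin.last _))) j.castSucc (by simpa using h3) (by
        intro i
        refine Fin.lastCases ?_ (fun i' => ?_) i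
        · intro _; simp
        · intro hne
          have : i' ≠ j := fun h => hne (by rw [h])
          simpa using h4 i' this)
      simpa using h5
    | right _ _ t1 h1 =>
      subst hs ht
      have h5 := inner (Fin.snoc (fun i => x i.castSucc) t1) (Fin.last _) (by simpa using h1) (by
        intro i
        refine Fin.lastCases ?_ (fun i' => ?_) i
        · intro h; exact absurd rfl h
        · intro _; simp)
      simpa using h5
  | CT x x' y h ih =>
    intro r hr
    cases hr with
    | con _ _ _ _ _ hs _ _ => exact absurd hs (C2_ne _ _ _ _ _)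
    | CT x y => exact ⟨_, .refl, h⟩
    | G1 z x y _ _ => exact ⟨_, .refl, h⟩
    | G2 z x y hz => exact (not_E_T_F hz).elim
    | left _ _ _ h' =>
      cases h' with
      | con _ _ _ _ _ hs _ _ => exact absurd hs (C1_ne _ _ _ _)
      | left _ _ _ h' =>
        cases h' with
        | con _ _ _ _ _ hs _ _ => exact absurd hs (C_ne _ _ _)
        | left _ _ _ h' => cases h'
        | right _ _ _ h' => cases h'
      | right _ _ x1 h' =>
        obtain ⟨x1', h5, h6⟩ := ih _ h'
        exact ⟨_, h5, .CT _ _ _ h6⟩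
    | right _ _ y1 h' => exact ⟨_, .refl, .CT _ _ _ h⟩
  | CF x y y' h ih =>
    intro r hr
    cases hr with
    | con _ _ _ _ _ hs _ _ => exact absurd hs (C2_ne _ _ _ _ _)
    | CF x y => exact ⟨_, .refl, h⟩
    | G1 z x y _ hz => exact (hz (.refl _)).elim
    | G2 z x y hz => exact ⟨_, .refl, h⟩
    | left _ _ _ h' =>
      cases h' with
      | con _ _ _ _ _ hs _ _ => exact absurd hs (C1_ne _ _ _ _)
      | left _ _ _ h' =>
        cases h' with
        | con _ _ _ _ _ hs _ _ => exact absurd hs (C_ne _ _ _)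
        | left _ _ _ h' => cases h'
        | right _ _ _ h' => cases h'
      | right _ _ x1 h' => exact ⟨_, .refl, .CF _ _ _ h⟩
    | right _ _ y1 h' =>
      obtain ⟨x1', h5, h6⟩ := ih _ h'
      exact ⟨_, h5, .CF _ _ _ h6⟩
  | G w a b X a' b' ha hb h1 h2 ih1 ih2 =>
    intro r hr
    cases hr with
    | con _ _ _ _ _ hs _ _ => exact absurd hs (C2_ne _ _ _ _ _)
    | CT x y => exact ⟨_, ha, h1⟩
    | CF x y => exact ⟨_, hb, h2⟩
    | G1 z x y _ hz => exact ⟨_, ha, h1⟩
    | G2 z x y hz => exact ⟨_, hb, h2⟩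
    | left _ _ _ h' =>
      cases h' with
      | con _ _ _ _ _ hs _ _ => exact absurd hs (C1_ne _ _ _ _)
      | left _ _ _ h' =>
        cases h' with
        | con _ _ _ _ _ hs _ _ => exact absurd hs (C_ne _ _ _)
        | left _ _ _ h' => cases h'
        | right _ _ w1 h' => exact ⟨X, .refl, .G _ _ _ _ _ _ ha hb h1 h2⟩
      | right _ _ x1 h' =>
        obtain ⟨x1', h5, h6⟩ := ih1 _ h'
        exact ⟨X, .refl, .G _ _ _ _ _ _ (ha.trans h5) hb h6 h2⟩
    | right _ _ y1 h' =>
      obtain ⟨x1', h5, h6⟩ := ih2 _ h'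
      exact ⟨X, .refl, .G _ _ _ _ _ _ ha (hb.trans h5) h1 h6⟩

theorem Sim.steps {s t s' : Tm V Q} (h : Sim M s t) (hs : ReflTransGen (U M) s s') :
    ∃ t', ReflTransGen (U M) t t' ∧ Sim M s' t' := by
  induction hs with
  | refl => exact ⟨t, .refl, h⟩
  | tail _ hu ih =>
    obtain ⟨t1, h1, h2⟩ := ih
    obtain ⟨t2, h3, h4⟩ := h2.step _ hu
    exact ⟨t2, h1.trans h3, h4⟩

theorem Sim.join {s t : Tm V Q} (h : Sim M s t) :
    ∃ y, ReflTransGen (R M) s y ∧ ReflTransGen (U M) t y := by
  induction h with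
  | refl s => exact ⟨s, .refl, .refl⟩
  | app s s' t t' _ _ ih1 ih2 =>
    obtain ⟨y1, h1, h2⟩ := ih1
    obtain ⟨y2, h3, h4⟩ := ih2
    exact ⟨_, R.rapp h1 h3, U.rapp h2 h4⟩
  | con q x x' s t r hs ht hr _ ih =>
    subst hs ht hr
    choose y h1 h2 using ih
    exact ⟨AllCombinators.inst (M.rhs q) y, (R.rinst _ h1).head (.comb q x), U.rinst _ h2⟩
  | CT x x' y _ ih =>
    obtain ⟨y, h1, h2⟩ := ih
    exact ⟨y, h1.head (.ruleCT x _), h2⟩
  | CF x y y' _ ih =>
    obtain ⟨v, h1, h2⟩ := ih
    exact ⟨v, h1.head (.ruleCF _ _), h2⟩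
  | G w a b X a' b' ha hb h1 h2 ih1 ih2 =>
    obtain ⟨y, h3, h4⟩ := ih1
    have ea : E M X a' := rtg_toE (fun _ _ h => U.toE h) ha
    have eb : E M X b' := rtg_toE (fun _ _ h => U.toE h) hb
    have e1 : E M a X := .trans _ _ _ h1.toE (.symm _ _ ea)
    have e2 : E M b X := .trans _ _ _ h2.toE (.symm _ _ eb)
    exact ⟨y, h3.head (.ruleC _ _ _ (.trans _ _ _ e1 (.symm _ _ e2))), ha.trans h4⟩

variable (M) in
/-- `y` is good for `x` -/
def J (x y : Tm V Q) : Prop := ∃ w, ReflTransGen (R M) x w ∧ ReflTransGen (U M) y w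

theorem J.fwd {x y y1 : Tm V Q} (h : J M x y) (hy : P1 M y y1) : J M x y1 := by
  obtain ⟨w, h1, h2⟩ := h
  obtain ⟨w', h3, h4⟩ := (P1.toSim hy).steps h2
  obtain ⟨v, h5, h6⟩ := h4.join
  exact ⟨v, h1.trans h5, h3.trans h6⟩

theorem J.bwd {x y y1 : Tm V Q} (h : J M x y) (hy : P1 M y1 y) : J M x y1 := by
  obtain ⟨w, h1, h2⟩ := h
  exact ⟨w, h1, h2.head (P1.toU hy)⟩

theorem J.transport {y z : Tm V Q} (h : E M y z) : ∀ x, (J M x y ↔ J M x z) := by
  induction h with
  | rel a b h => exact fun x => ⟨fun hx => hx.fwd h, fun hx => hx.bwd h⟩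
  | refl a => exact fun x => Iff.rfl
  | symm a b _ ih => exact fun x => (ih x).symm
  | trans a b c _ _ ih1 ih2 => exact fun x => (ih1 x).trans (ih2 x)

theorem E.toJ {x y : Tm V Q} (h : E M x y) : J M x y :=
  (J.transport h x).1 ⟨x, .refl, .refl⟩

theorem U_F {w : Tm V Q} (h : ReflTransGen (U M) F w) : w = F := by
  induction h with
  | refl => rfl
  | tail _ h ih => subst ih; cases h

theorem toF {z : Tm V Q} (h : E M z F) : ReflTransGen (R M) z F := by
  obtain ⟨w, h1, h2⟩ := h.toJ
  rw [U_F h2] at h1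
  exact h1

theorem U.toR {s t : Tm V Q} (h : U M s t) : ReflTransGen (R M) s t := by
  induction h with
  | con q x s t r hs ht hr => subst hs ht hr; exact .single (.comb q x)
  | CT x y => exact .single (.ruleCT x y)
  | CF x y => exact .single (.ruleCF x y)
  | G1 z x y h _ => exact .single (.ruleC _ _ _ h)
  | G2 z x y hz =>
    exact (R.rapp (R.rapp (R.rapp .refl (toF hz)) .refl) .refl).tail (.ruleCF x y)
  | left s s' t _ ih => exact R.rapp ih .refl
  | right s t t' _ ih => exact R.rapp .refl ih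

theorem U.rtoR {s t : Tm V Q} (h : ReflTransGen (U M) s t) : ReflTransGen (R M) s t := by
  induction h with
  | refl => exact .refl
  | tail _ h ih => exact ih.trans h.toR

theorem R.ofStep {s t : Tm V Q} (h : ReflTransGen (Step M) s t) : ReflTransGen (R M) s t := by
  induction h with
  | refl => exact .refl
  | tail _ h ih => exact ih.tail (step_iff.1 h)

theorem R.toStep {s t : Tm V Q} (h : ReflTransGen (R M) s t) : ReflTransGen (Step M) s t := by
  induction h with
  | refl => exact .refl
  | tail _ h ih => exact ih.tail (step_iff.2 h)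

theorem E.joinable {x y : Tm V Q} (h : E M x y) :
    ∃ w, ReflTransGen (R M) x w ∧ ReflTransGen (R M) y w := by
  obtain ⟨w, h1, h2⟩ := h.toJ
  exact ⟨w, h1, U.rtoR h2⟩

end aux

/-- The case of the problem: `Q = Fin 3`, `I = con 0`, `K = con 1`, `S = con 2` with the rules
`I x → x`, `K x y → x`, `S x y z → (x z) (y z)`. -/
def ski : Sys (Fin 3) where
  ar := fun q => q
  rhs := fun q => match q with
    | 0 => var 0
    | 1 => var 0
    | 2 => app (app (var 0) (var 2)) (app (var 1) (var 2))

example {V : Type} (conv : Tm V (Fin 3) → Tm V (Fin 3) → Prop) (x : Tm V (Fin 3)) :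
    StepOf ski conv (app (con 0) x) x := StepOf.comb (M := ski) 0 (fun _ => x)

example {V : Type} (conv : Tm V (Fin 3) → Tm V (Fin 3) → Prop) (x y : Tm V (Fin 3)) :
    StepOf ski conv (app (app (con 1) x) y) x :=
  StepOf.comb (M := ski) 1 (fun i : Fin 2 => if i = 0 then x else y)

example {V : Type} (conv : Tm V (Fin 3) → Tm V (Fin 3) → Prop) (x y z : Tm V (Fin 3)) :
    StepOf ski conv (app (app (app (con 2) x) y) z) (app (app x z) (app y z)) :=
  StepOf.comb (M := ski) 2 (fun i : Fin 3 => if i = 0 then x else if i = 1 then y else z)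

/-- The rewrite relation of the system is confluent, for every system of combinators. -/
theorem result {V Q : Type} (M : Sys Q) (t t₁ t₂ : Tm V Q)
    (h₁ : Relation.ReflTransGen (Step M) t t₁) (h₂ : Relation.ReflTransGen (Step M) t t₂) :
    ∃ u : Tm V Q, Relation.ReflTransGen (Step M) t₁ u ∧ Relation.ReflTransGen (Step M) t₂ u := by
  have e1 : E M t t₁ := rtg_toE (fun _ _ h => R.toE h) (R.ofStep h₁)
  have e2 : E M t t₂ := rtg_toE (fun _ _ h => R.toE h) (R.ofStep h₂)
  obtain ⟨u, hu1, hu2⟩ := E.joinable (.trans _ _ _ (.symm _ _ e1) e2)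
  exact ⟨u, R.toStep hu1, R.toStep hu2⟩

end Pool.Agent.Results.MP_18c441_lc.AllCombinators
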